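import Pool.Agent.REV.StmtsU2
import Pool.Agent.Helper51_REV.FIN

set_option autoImplicit false

/-!
# Squad REV, part U, top: a solution for `i = n - 1` with a bounded zonal generating density is a ball
-/

open MeasureTheory Module Set Filter
open scoped RealInnerProductSpace Pointwise Topology ENNReal

namespace Pool.Agent.REV.H63

open Pool.Agent.Helper55_PB Pool.Agent.Helper28_PB Pool.Agent.BPH Pool.Agent.REV
open Pool.Agent.REV.H51 (zon_apply zon_of_le hz_one)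

theorem C1_top {n : ℕ} (hn : 4 ≤ n) : C1 n (n - 1) = 0 := by
  unfold C1
  rw [(Nat.descFactorial_eq_zero_iff_lt).2 (by omega)]
  simp

theorem sign_mul_self' (x : ℝ) : Real.sign x * x = |x| := by
  rcases lt_trichotomy x 0 with h | h | h
  · rw [Real.sign_of_neg h, abs_of_neg h]
    ring
  · rw [h]
    simp
  · rw [Real.sign_of_pos h, abs_of_pos h, one_mul]

theorem exists_perp' {E : Type} [NormedAddCommGroup E] [InnerProductSpace ℝ E]
    [FiniteDimensional ℝ E] (hn : 2 ≤ finrank ℝ E) (e : E) : ∃ w : E, ‖w‖ = 1 ∧ ⟪e, w⟫ = 0 := by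
  have h1 : finrank ℝ (ℝ ∙ e) + finrank ℝ (ℝ ∙ e)ᗮ = finrank ℝ E :=
    Submodule.finrank_add_finrank_orthogonal _
  have h2 : finrank ℝ (ℝ ∙ e) ≤ 1 := by
    simpa using finrank_span_le_card (R := ℝ) ({e} : Set E)
  have h3 : 0 < finrank ℝ (ℝ ∙ e)ᗮ := by omega
  have hnt : Nontrivial ((ℝ ∙ e)ᗮ : Submodule ℝ E) :=
    Module.nontrivial_of_finrank_pos (R := ℝ) h3
  obtain ⟨w, hw⟩ := exists_norm_eq ((ℝ ∙ e)ᗮ : Submodule ℝ E) (zero_le_one (α := ℝ))
  refine ⟨w, by simpa using hw, ?_⟩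
  exact (Submodule.mem_orthogonal_singleton_iff_inner_right.1 w.2)

section

variable {E : Type} [NormedAddCommGroup E] [InnerProductSpace ℝ E] [FiniteDimensional ℝ E]
  [MeasurableSpace E] [BorelSpace E]

/-- almost no point of the sphere is on the axis -/
theorem ae_lt (sp : SPH) (hn : 2 ≤ finrank ℝ E) {e : E} (he : ‖e‖ = 1) :
    ∀ᵐ x ∂sph E, ‖x‖ = 1 ∧ |⟪e, x⟫| < 1 := by
  have hnt : Nontrivial E := Module.nontrivial_of_finrank_pos (R := ℝ) (by omega)
  have h1 := sp.norm (E := E)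
  have hne : (ℝ ∙ e) ≠ ⊤ := by
    intro h
    have h2 : finrank ℝ (ℝ ∙ e) ≤ 1 := by
      simpa using finrank_span_le_card (R := ℝ) ({e} : Set E)
    rw [h, finrank_top] at h2
    omega
  have h2 := sp.null (ℝ ∙ e) hne
  have h3 : ∀ᵐ x ∂sph E, x ∉ (ℝ ∙ e) := by
    rw [ae_iff]
    simpa using h2
  filter_upwards [h1, h3] with x hx hx'
  refine ⟨hx, ?_⟩
  by_contra hlt
  push Not at hlt
  apply hx'
  have h4 : |⟪e, x⟫| ≤ 1 := by
    have := abs_real_inner_le_norm e x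
    rwa [he, hx, one_mul] at this
  have h5 : ⟪e, x⟫ ^ 2 = 1 := by
    rw [← sq_abs, le_antisymm h4 hlt, one_pow]
  have h6 : ‖x - ⟪e, x⟫ • e‖ ^ 2 = 0 := by
    have h5' : ⟪x, e⟫ = ⟪e, x⟫ := real_inner_comm _ _
    rw [norm_sub_sq_real, norm_smul, real_inner_smul_right, he, hx, h5',
      Real.norm_eq_abs, mul_one, sq_abs]
    nlinarith
  have h7 : x - ⟪e, x⟫ • e = 0 := by
    have := pow_eq_zero_iff (two_ne_zero) |>.1 h6
    exact norm_eq_zero.1 this
  rw [Submodule.mem_span_singleton]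
  exact ⟨⟪e, x⟫, (sub_eq_zero.1 h7).symm⟩

/-- **Bounded zonal densities, `i = n - 1`.**  `K` is the zonoid of a bounded zonal profile, and the
step of the density of `K` is again a density of a multiple of `K`. -/
theorem ball_of_profile (sp : SPH) (pin : PINStmt) (dhz : DhzStmt) (hzr : HzrStmt)
    (zst : ZstStmt) (cpo : CpoStmt) (ufd : UfdStmt) (h4 : 4 ≤ finrank ℝ E) {K : Set E}
    (hcc : CC K) (h0 : (0 : E) ∈ interior K)
    (geo : ∀ f f' : E → ℝ, Dens f → Dens f' → IsStep (finrank ℝ E - 1) f f' → ∀ t : ℝ, 0 < t →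
      Nr K f t 0 → ∃ t' : ℝ, 0 < t' ∧ Nr K f' t' 0)
    {e : E} (he : ‖e‖ = 1) {φ : ℝ → ℝ} (hφ : Prf φ) {t : ℝ} (ht : 0 < t)
    (hK : ∀ w : E, supportFn K w = t * hz (zon e φ) w) :
    ∃ r : ℝ, 0 < r ∧ K = Metric.closedBall (0 : E) r := by
  have hnt : Nontrivial E := Module.nontrivial_of_finrank_pos (R := ℝ) (by omega)
  have hprob : IsProbabilityMeasure (sph E) := sp.prob
  set n := finrank ℝ E with hn
  -- positivity of the support function
  obtain ⟨r, hr, hball⟩ := exists_ball_zero h0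
  have hrK : ∀ w : E, ‖w‖ = 1 → 0 < supportFn K w := by
    intro w hw
    have := le_supportFn_of_ball hcc.cpt hr.le hball w
    rw [hw, mul_one] at this
    linarith
  obtain ⟨w₀, hw₀, hew₀⟩ := exists_perp' (E := E) (by omega) e
  obtain ⟨M, hM⟩ := hφ.bdd
  have hzm : ∀ ψ : ℝ → ℝ, Measurable ψ → Measurable (zon e ψ) := by
    intro ψ hψ
    exact hψ.comp (by fun_prop)
  have hint : ∀ ψ : ℝ → ℝ, Prf ψ → Integrable (zon e ψ) (sph E) := by
    intro ψ hψ
    obtain ⟨M', hM'⟩ := hψ.bdd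
    refine Integrable.of_bound (hzm ψ hψ.meas).aestronglyMeasurable M' ?_
    refine ae_of_all _ fun x => ?_
    rw [Real.norm_eq_abs, zon_apply, abs_of_nonneg (hψ.nonneg _)]
    exact hM' _
  -- the mass
  set m₀ : ℝ := ∫ x, zon e φ x ∂sph E with hm₀
  have hm₀pos : 0 < m₀ := by
    have h1 : 0 < hz (zon e φ) w₀ := by
      have h2 := hrK w₀ hw₀
      rw [hK w₀] at h2
      exact (pos_iff_pos_of_mul_pos h2).1 ht
    have h3 : hz (zon e φ) w₀ ≤ m₀ := by
      unfold hz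
      rw [hm₀]
      refine integral_mono_of_nonneg (ae_of_all _ fun x => mul_nonneg (abs_nonneg _)
        (hφ.nonneg _)) (hint φ hφ) ?_
      filter_upwards [sp.norm (E := E)] with x hx
      have h5 : |⟪w₀, x⟫| ≤ 1 := by
        have := abs_real_inner_le_norm w₀ x
        rwa [hw₀, hx, one_mul] at this
      exact mul_le_of_le_one_left (hφ.nonneg _) h5
    linarith
  set φ₁ : ℝ → ℝ := fun s => m₀⁻¹ * φ s with hφ₁
  have hPrf : Prf φ₁ := by
    refine ⟨hφ.meas.const_mul _, fun s => mul_nonneg (inv_nonneg.2 hm₀pos.le) (hφ.nonneg s),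
      m₀⁻¹ * M, fun s => mul_le_mul_of_nonneg_left (hM s) (inv_nonneg.2 hm₀pos.le)⟩
  have hzon₁ : zon e φ₁ = fun x => m₀⁻¹ * zon e φ x := rfl
  have hDens : Dens (zon e φ₁) := by
    refine ⟨hzm _ hPrf.meas, fun x => hPrf.nonneg _, ?_, ?_⟩
    · obtain ⟨M', hM'⟩ := hPrf.bdd
      exact ⟨M', fun x => hM' _⟩
    · rw [hzon₁, integral_const_mul, ← hm₀]
      field_simp
  have hhz₁ : ∀ w, hz (zon e φ₁) w = m₀⁻¹ * hz (zon e φ) w := by
    intro w
    unfold hz
    rw [← integral_const_mul]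
    congr 1
    ext x
    rw [hzon₁]
    ring
  have hK₁ : ∀ w, supportFn K w = (t * m₀) * hz (zon e φ₁) w := by
    intro w
    rw [hK w, hhz₁]
    field_simp
  obtain ⟨c0, hc0, hst⟩ := zst E (n - 1) h4 (by omega) (by omega)
  obtain ⟨hZ, hPrf', hDens', hStep⟩ := hst e φ₁ he hPrf hDens
  obtain ⟨-, -, hC2, -⟩ := cpo n (n - 1) h4 (by omega) (by omega)
  rw [C1_top h4] at hPrf' hDens' hStep
  set D := C2 n (n - 1) with hD
  set ζ : ℝ := c0 / ZZ (n - 1) (zon e φ₁) with hζ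
  have hζ0 : 0 < ζ := div_pos hc0 hZ
  set f₁ : ℝ → ℝ := fun s => ζ * TT n (n - 1) 0 D φ₁ s with hf₁
  have hNr : Nr K (zon e φ₁) (t * m₀) 0 := by
    intro w
    rw [neg_zero, Real.exp_zero, one_mul, hK₁ w]
    exact ⟨le_rfl, le_rfl⟩
  obtain ⟨t', ht', hNr'⟩ := geo _ _ hDens hDens' hStep (t * m₀) (mul_pos ht hm₀pos) hNr
  have hK' : ∀ w, supportFn K w = t' * hz (zon e f₁) w := by
    intro w
    have := hNr' w
    rw [neg_zero, Real.exp_zero, one_mul] at this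
    exact le_antisymm this.2 this.1
  have hBM : ∀ ψ : ℝ → ℝ, Prf ψ → BM ψ := by
    intro ψ hψ
    obtain ⟨M', hM'⟩ := hψ.bdd
    exact ⟨hψ.meas, M', fun s => by rw [abs_of_nonneg (hψ.nonneg _)]; exact hM' s⟩
  have htm : 0 < t * m₀ := mul_pos ht hm₀pos
  have hRA : ∀ c ∈ Ioc (0 : ℝ) 1, RA n φ₁ c = (t' / (t * m₀)) * RA n f₁ c := by
    apply hzr E h4 e he φ₁ f₁ (t' / (t * m₀)) (hBM _ hPrf) (hBM _ hPrf')
    intro w
    have h1 := hK₁ w
    rw [hK' w] at h1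
    rw [div_mul_eq_mul_div, h1]
    field_simp
  have hRA' : ∀ c ∈ Ioc (0 : ℝ) 1,
      RA n φ₁ c = (t' / (t * m₀) * ζ) * RA n (TT n (n - 1) 0 D φ₁) c := by
    intro c hc
    have h1 : RA n f₁ c = ζ * RA n (TT n (n - 1) 0 D φ₁) c := RA_smul
    rw [hRA c hc, h1]
    ring
  have hRA1 : 0 < RA n φ₁ 1 := by
    obtain ⟨κ, hκ, hdz⟩ := dhz E h4
    have h1 := hdz e w₀ he hw₀ hew₀ 0 1 (by norm_num) one_pos φ₁ (hBM _ hPrf)
    have h2 : ∫ x, Real.sign ⟪(0 : ℝ) • e + (1 : ℝ) • w₀, x⟫ * ⟪w₀, x⟫ * zon e φ₁ x ∂sph E =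
        hz (zon e φ₁) w₀ := by
      unfold hz
      congr 1
      ext x
      rw [zero_smul, zero_add, one_smul, sign_mul_self']
    rw [h2, one_mul] at h1
    have h3 : 0 < hz (zon e φ₁) w₀ := by
      have h4 := hrK w₀ hw₀
      rw [hK₁ w₀] at h4
      exact (pos_iff_pos_of_mul_pos h4).1 htm
    rw [h1] at h3
    exact (pos_iff_pos_of_mul_pos h3).1 hκ
  obtain ⟨k, hk, hconst⟩ := ufd n D (t' / (t * m₀) * ζ) φ₁ h4 hC2 (by positivity) hPrf.meas
    hPrf.nonneg hPrf.bdd hRA1 hRA'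
  obtain ⟨b, hb, hone⟩ := hz_one (E := E) sp pin
  have hcst : ∀ u : E, ‖u‖ = 1 → supportFn K u = t' * (ζ * k * b) := by
    intro u hu
    rw [hK' u, ← hone u hu]
    congr 1
    unfold hz
    rw [← integral_const_mul]
    apply integral_congr_ae
    filter_upwards [ae_lt sp (E := E) (by omega) he] with x hx
    have h1 : zon e f₁ x = ζ * k := by
      rw [zon_of_le he _ hx.1.le]
      show ζ * TT n (n - 1) 0 D φ₁ |⟪e, x⟫| = ζ * k
      rw [hconst _ ⟨abs_nonneg _, hx.2⟩]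
    rw [h1]
    ring
  have hpos : 0 < t' * (ζ * k * b) := by positivity
  refine ⟨t' * (ζ * k * b), hpos, Subset.antisymm ?_ ?_⟩
  · exact subset_closedBall_of_max hcc hpos.le (fun w hw => (hcst w hw).le)
  · exact closedBall_subset_of_min hcc (fun w hw => (hcst w hw).ge)

end

end Pool.Agent.REV.H63
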