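import Pool.Agent.REV.DefsS

set_option autoImplicit false

/-!
# Squad REV: replacing a profile on `[0,1]` by a continuous function on the line
-/

namespace Pool.Agent.REV

open Set

/-- the continuous extension of `f` from `[0,1]` -/
noncomputable def clf (f : ℝ → ℝ) (t : ℝ) : ℝ := f (max 0 (min t 1))

end Pool.Agent.REV

namespace Pool.Agent.REV.H63

open Set

theorem clf_eq {f : ℝ → ℝ} {t : ℝ} (ht : t ∈ Icc (0 : ℝ) 1) : clf f t = f t := by
  unfold clf
  rw [min_eq_left ht.2, max_eq_right ht.1]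

theorem clf_mem (t : ℝ) : max 0 (min t 1) ∈ Icc (0 : ℝ) 1 :=
  ⟨le_max_left _ _, max_le zero_le_one (min_le_right _ _)⟩

theorem clf_cont {f : ℝ → ℝ} (hf : ContinuousOn f (Icc 0 1)) : Continuous (clf f) := by
  have h1 : Continuous (fun t : ℝ => max 0 (min t 1)) := by fun_prop
  exact hf.comp_continuous h1 (fun t => clf_mem t)

theorem clf_bdd {f : ℝ → ℝ} (hf : ContinuousOn f (Icc 0 1)) : ∃ C, ∀ t, |clf f t| ≤ C := by
  obtain ⟨C, hC⟩ := isCompact_Icc.exists_bound_of_continuousOn hf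
  exact ⟨C, fun t => by have := hC _ (clf_mem t); rwa [Real.norm_eq_abs] at this⟩

/-- `RA` only depends on the values on `[0,1]` -/
theorem RA_congr {n : ℕ} {f g : ℝ → ℝ} {c : ℝ} (hc : c ∈ Icc (0 : ℝ) 1)
    (h : ∀ t ∈ Icc (0 : ℝ) 1, f t = g t) : RA n f c = RA n g c := by
  unfold RA
  apply intervalIntegral.integral_congr
  intro r hr
  rw [uIcc_of_le zero_le_one] at hr
  have : r * c ∈ Icc (0 : ℝ) 1 := ⟨mul_nonneg hr.1 hc.1, mul_le_one₀ hr.2 hc.1 hc.2⟩
  simp only [h _ this]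

/-- `RB` only depends on the values on `[0,1]` -/
theorem RB_congr {n : ℕ} {f g : ℝ → ℝ} {c : ℝ} (hc : c ∈ Icc (0 : ℝ) 1)
    (h : ∀ t ∈ Icc (0 : ℝ) 1, f t = g t) : RB n f c = RB n g c := by
  unfold RB
  apply intervalIntegral.integral_congr
  intro r hr
  rw [uIcc_of_le zero_le_one] at hr
  have : r * c ∈ Icc (0 : ℝ) 1 := ⟨mul_nonneg hr.1 hc.1, mul_le_one₀ hr.2 hc.1 hc.2⟩
  simp only [h _ this]

/-- `RA` with values on `[0,1)` only (the point `1` is a null set) -/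
theorem RA_congr' {n : ℕ} {f g : ℝ → ℝ} {c : ℝ} (hc : c ∈ Icc (0 : ℝ) 1)
    (h : ∀ t ∈ Ico (0 : ℝ) 1, f t = g t) : RA n f c = RA n g c := by
  unfold RA
  rw [intervalIntegral.integral_of_le zero_le_one, intervalIntegral.integral_of_le zero_le_one,
    MeasureTheory.integral_Ioc_eq_integral_Ioo, MeasureTheory.integral_Ioc_eq_integral_Ioo]
  apply MeasureTheory.setIntegral_congr_fun measurableSet_Ioo
  intro r hr
  have : r * c ∈ Ico (0 : ℝ) 1 := ⟨mul_nonneg hr.1.le hc.1,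
    lt_of_le_of_lt (mul_le_of_le_one_right hr.1.le hc.2) hr.2⟩
  simp only [h _ this]

theorem RB_congr' {n : ℕ} {f g : ℝ → ℝ} {c : ℝ} (hc : c ∈ Icc (0 : ℝ) 1)
    (h : ∀ t ∈ Ico (0 : ℝ) 1, f t = g t) : RB n f c = RB n g c := by
  unfold RB
  rw [intervalIntegral.integral_of_le zero_le_one, intervalIntegral.integral_of_le zero_le_one,
    MeasureTheory.integral_Ioc_eq_integral_Ioo, MeasureTheory.integral_Ioc_eq_integral_Ioo]
  apply MeasureTheory.setIntegral_congr_fun measurableSet_Ioo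
  intro r hr
  have : r * c ∈ Ico (0 : ℝ) 1 := ⟨mul_nonneg hr.1.le hc.1,
    lt_of_le_of_lt (mul_le_of_le_one_right hr.1.le hc.2) hr.2⟩
  simp only [h _ this]

theorem RA_clf {n : ℕ} {f : ℝ → ℝ} {c : ℝ} (hc : c ∈ Icc (0 : ℝ) 1) :
    RA n (clf f) c = RA n f c := RA_congr hc fun _ ht => clf_eq ht

theorem RB_clf {n : ℕ} {f : ℝ → ℝ} {c : ℝ} (hc : c ∈ Icc (0 : ℝ) 1) :
    RB n (clf f) c = RB n f c := RB_congr hc fun _ ht => clf_eq ht

theorem RA_smul {n : ℕ} {f : ℝ → ℝ} {c k : ℝ} : RA n (fun t => k * f t) c = k * RA n f c := by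
  unfold RA
  rw [← intervalIntegral.integral_const_mul]
  congr 1
  ext r
  ring

theorem RB_smul {n : ℕ} {f : ℝ → ℝ} {c k : ℝ} : RB n (fun t => k * f t) c = k * RB n f c := by
  unfold RB
  rw [← intervalIntegral.integral_const_mul]
  congr 1
  ext r
  ring

end Pool.Agent.REV.H63
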