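import Pool.Agent.REV.StmtsU3
import Pool.Agent.Helper65_REV.GEN
import Pool.Agent.Helper63_REV.CLP

set_option autoImplicit false

/-!
# Squad REV, row SD3
-/

namespace Pool.Agent.REV.H63

open Set Filter
open scoped Topology

theorem sd3 (sal : Sa3Stmt) (ymo : Ym3Stmt) (rct : Rt3Stmt) (rpo : Rp3Stmt) (mra : Mra3Stmt) :
    Sd3Stmt := by
  intro n C A f hn hf hC hA hlow
  have hn' : (3 : ℝ) ≤ n := by exact_mod_cast hn
  have hsal := sal n C A f hn hf hA hlow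
  obtain ⟨M, hM⟩ := isCompact_Icc.exists_bound_of_continuousOn hf.cont
  have hM' : ∀ t ∈ Icc (0 : ℝ) 1, 0 < f t ∧ f t ≤ M := fun t ht =>
    ⟨hf.pos t ht, le_trans (le_abs_self _) (by have := hM t ht; rwa [Real.norm_eq_abs] at this)⟩
  have hpos : ∀ c ∈ Icc (0 : ℝ) 1, 0 < RA n f c ∧ 0 < RB n f c ∧ RA n f c ≤ M ∧ RB n f c ≤ M :=
    rpo n f M hn hf.cont hM'
  obtain ⟨hRAc, hRBc⟩ := (rct n f hn).2 hf.cont
  have h1m : (1 : ℝ) ∈ Icc (0 : ℝ) 1 := ⟨zero_le_one, le_refl _⟩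
  have hRA1 := (hpos 1 h1m).1
  have hRB1 := (hpos 1 h1m).2.1
  set P : ℝ := ((n : ℝ) - 2) * RB n f 1 with hP
  have hPpos : 0 < P := mul_pos (by linarith) hRB1
  -- the choice of a'
  obtain ⟨a', ha1, ha2, ha3⟩ : ∃ a' : ℝ, 1 ≤ a' ∧ a' < 1 + A ∧ RA n f 1 < a' * P := by
    refine ⟨(max 1 (RA n f 1 / P) + (1 + A)) / 2, ?_, ?_, ?_⟩
    · have := le_max_left (1 : ℝ) (RA n f 1 / P)
      linarith
    · have h1 : max 1 (RA n f 1 / P) < 1 + A := by
        apply max_lt (by linarith)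
        rw [div_lt_iff₀ hPpos]
        exact hsal
      linarith
    · have h1 : RA n f 1 / P < 1 + A := by
        rw [div_lt_iff₀ hPpos]
        exact hsal
      have h2 : RA n f 1 / P < (max 1 (RA n f 1 / P) + (1 + A)) / 2 := by
        have := le_max_right (1 : ℝ) (RA n f 1 / P)
        linarith
      rwa [div_lt_iff₀ hPpos] at h2
  -- the choice of c1
  obtain ⟨c1, hc10, hc11, hc1⟩ : ∃ c1 : ℝ, 0 < c1 ∧ c1 < 1 ∧ ∀ c ∈ Icc c1 1,
      RA n f c ≤ (1 + (a' - 1) * c ^ 2) * (((n : ℝ) - 2) * RB n f c) := by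
    have hcont : ContinuousWithinAt (fun c => (1 + (a' - 1) * c ^ 2) *
        (((n : ℝ) - 2) * RB n f c) - RA n f c) (Icc 0 1) 1 := by
      apply ContinuousWithinAt.sub _ (hRAc 1 h1m)
      apply ContinuousWithinAt.mul
      · fun_prop
      · exact continuousWithinAt_const.mul (hRBc 1 h1m)
    have hv : 0 < (1 + (a' - 1) * (1 : ℝ) ^ 2) * (((n : ℝ) - 2) * RB n f 1) - RA n f 1 := by
      have : (1 + (a' - 1) * (1 : ℝ) ^ 2) = a' := by ring
      rw [this]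
      linarith
    have hev := hcont.eventually (lt_mem_nhds hv)
    rw [eventually_nhdsWithin_iff, Metric.eventually_nhds_iff] at hev
    obtain ⟨r, hr, hr'⟩ := hev
    refine ⟨max (1 / 2) (1 - r / 2), ?_, ?_, ?_⟩
    · exact lt_of_lt_of_le (by norm_num) (le_max_left _ _)
    · exact max_lt (by norm_num) (by linarith)
    · intro c hc
      have h1 : 1 / 2 ≤ c := le_trans (le_max_left _ _) hc.1
      have h2 : 1 - r / 2 ≤ c := le_trans (le_max_right _ _) hc.1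
      have h3 := hr' (y := c) (by rw [Real.dist_eq, abs_sub_comm, abs_of_nonneg (by linarith [hc.2])]; linarith)
        ⟨by linarith, hc.2⟩
      linarith
  have hN : MonotoneOn (fun c => (1 + (a' - 1) * c ^ 2) * RA n f c ^ 2) (Icc c1 1) :=
    (ymo n f a' c1 1 hn hf.cont hf.pos hc10 le_rfl).1 hc1
  have hmra := mra n (1 + A) f hn (by linarith) (fun t ht => (hf.pos t ht).le)
  have hSg : Icc (0 : ℝ) 1 ⊆ Sg (1 + A) := by
    intro c hc
    refine ⟨hc.1, hc.2, ?_⟩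
    have : 0 ≤ (1 + A - 1) * c ^ 2 := mul_nonneg (by linarith) (sq_nonneg _)
    linarith
  have hRB' : MonotoneOn (RB' n (1 + A) f) (Icc 0 1) := ((hmra.2.1 hlow).2).mono hSg
  set a : ℝ := 1 + A with ha
  have ha0 : 0 < a := by rw [ha]; linarith
  -- the parameter δ
  set δ : ℝ := Real.sqrt (1 - c1 ^ 2) with hδ
  have hδ0 : 0 < δ := Real.sqrt_pos.mpr (by nlinarith)
  have hδ1 : δ ≤ 1 := Real.sqrt_le_one.mpr (by nlinarith [sq_nonneg c1])
  -- formula for El_b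
  set m : ℝ := ((n : ℝ) + 1) / 2 with hm
  set k : ℝ := ((n : ℝ) - 2) / 2 with hk
  have hk1 : 1 / 2 ≤ k := by rw [hk]; linarith
  have hmk : m = 3 / 2 + k := by rw [hm, hk]; ring
  have hcmem : ∀ τ : ℝ, 0 ≤ τ → τ ≤ δ → Real.sqrt (1 - τ ^ 2) ∈ Icc c1 1 := by
    intro τ h0 h1
    constructor
    · apply Real.le_sqrt_of_sq_le
      have : τ ^ 2 ≤ δ ^ 2 := pow_le_pow_left₀ h0 h1 2
      rw [hδ, Real.sq_sqrt (by nlinarith)] at this
      linarith
    · exact Real.sqrt_le_one.mpr (by nlinarith [sq_nonneg τ])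
  have hformula : ∀ τ : ℝ, 0 ≤ τ → τ ≤ δ → ∀ c : ℝ, c = Real.sqrt (1 - τ ^ 2) →
      El n (1 / a) f τ = C * a ^ (-m) * RB' n a f c *
        ((1 + (a' - 1) * c ^ 2) * RA n f c ^ 2) ^ k *
        ((1 + (a - 1) * c ^ 2) / (1 + (a' - 1) * c ^ 2)) ^ k := by
    intro τ h0 h1 c hc
    have hcm := hcmem τ h0 h1
    rw [← hc] at hcm
    have hc0 : 0 < c := lt_of_lt_of_le hc10 hcm.1
    have hcI : c ∈ Icc (0 : ℝ) 1 := ⟨hc0.le, hcm.2⟩
    have hτ1 : τ ≤ 1 := le_trans h1 hδ1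
    have hcsq : c ^ 2 = 1 - τ ^ 2 := by
      rw [hc, Real.sq_sqrt]
      nlinarith
    have hq : 0 < 1 + (a - 1) * c ^ 2 := by
      have : 0 ≤ (a - 1) * c ^ 2 := mul_nonneg (by rw [ha]; linarith) (sq_nonneg _)
      linarith
    have hq' : 0 < 1 + (a' - 1) * c ^ 2 := by
      have : 0 ≤ (a' - 1) * c ^ 2 := mul_nonneg (by linarith) (sq_nonneg _)
      linarith
    have hRA := (hpos c hcI).1
    have hcv := H65.cvbg n a c f hq
    have hRBeq : RB' n a f c = (1 + (a - 1) * c ^ 2) ^ (3 / 2 : ℝ) * RB n f c := by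
      rw [hcv, ← mul_assoc, ← Real.rpow_add hq]
      norm_num
    have hfe := hf.eq τ ⟨h0, hτ1⟩
    rw [← hc] at hfe
    have hbase : 1 + (1 / a - 1) * τ ^ 2 = (1 + (a - 1) * c ^ 2) / a := by
      rw [hcsq]
      field_simp
      ring
    unfold El
    rw [hfe, hbase, hRBeq]
    rw [← hm, Real.div_rpow hq.le ha0.le, Real.mul_rpow hq'.le (sq_nonneg _),
      Real.div_rpow hq.le hq'.le]
    have e1 : (1 + (a - 1) * c ^ 2) ^ m =
        (1 + (a - 1) * c ^ 2) ^ (3 / 2 : ℝ) * (1 + (a - 1) * c ^ 2) ^ k := by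
      rw [hmk, Real.rpow_add hq]
    have e2 : (RA n f c ^ 2) ^ k = RA n f c ^ (n - 2) := by
      rw [← Real.rpow_natCast (RA n f c) 2, ← Real.rpow_mul hRA.le,
        ← Real.rpow_natCast (RA n f c) (n - 2)]
      congr 1
      rw [hk, Nat.cast_sub (by omega)]
      push_cast
      ring
    rw [e1, e2, Real.rpow_neg ha0.le]
    have hne : (1 + (a' - 1) * c ^ 2) ^ k ≠ 0 := (Real.rpow_pos_of_pos hq' _).ne'
    have hne2 : a ^ m ≠ 0 := (Real.rpow_pos_of_pos ha0 _).ne'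
    generalize (1 + (a' - 1) * c ^ 2) ^ k = X at hne ⊢
    generalize (1 + (a - 1) * c ^ 2) ^ (3 / 2 : ℝ) = Y
    generalize (1 + (a - 1) * c ^ 2) ^ k = Z
    field_simp
  -- antitone estimate
  have hmain : ∀ τ1 τ2 : ℝ, 0 ≤ τ1 → τ1 ≤ τ2 → τ2 ≤ δ →
      El n (1 / a) f τ2 ≤ El n (1 / a) f τ1 *
        (1 - (a - a') / (2 * a ^ 2) * (τ2 ^ 2 - τ1 ^ 2)) ∧
      0 < El n (1 / a) f τ1 := by
    intro τ1 τ2 h0 h1 h2
    have hτ2 : 0 ≤ τ2 := le_trans h0 h1
    have h1' : τ1 ≤ δ := le_trans h1 h2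
    set c := Real.sqrt (1 - τ1 ^ 2) with hc
    set d := Real.sqrt (1 - τ2 ^ 2) with hd
    have hcm := hcmem τ1 h0 h1'
    have hdm := hcmem τ2 hτ2 h2
    rw [← hc] at hcm
    rw [← hd] at hdm
    have hdc : d ≤ c := Real.sqrt_le_sqrt (by nlinarith)
    have hc0 : 0 < c := lt_of_lt_of_le hc10 hcm.1
    have hd0 : 0 < d := lt_of_lt_of_le hc10 hdm.1
    have hcsq : c ^ 2 = 1 - τ1 ^ 2 := by
      rw [hc, Real.sq_sqrt]
      have : τ1 ≤ 1 := le_trans h1' hδ1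
      nlinarith
    have hdsq : d ^ 2 = 1 - τ2 ^ 2 := by
      rw [hd, Real.sq_sqrt]
      have : τ2 ≤ 1 := le_trans h2 hδ1
      nlinarith
    have hcI : c ∈ Icc (0 : ℝ) 1 := ⟨hc0.le, hcm.2⟩
    have hdI : d ∈ Icc (0 : ℝ) 1 := ⟨hd0.le, hdm.2⟩
    have haa : 0 ≤ a - 1 := by rw [ha]; linarith
    have haa' : 0 ≤ a' - 1 := by linarith
    have hqc : 0 < 1 + (a - 1) * c ^ 2 := by positivity
    have hqd : 0 < 1 + (a - 1) * d ^ 2 := by positivity
    have hqc' : 0 < 1 + (a' - 1) * c ^ 2 := by positivity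
    have hqd' : 0 < 1 + (a' - 1) * d ^ 2 := by positivity
    have hRAc := (hpos c hcI).1
    have hRAd := (hpos d hdI).1
    have hRBc0 : 0 < RB' n a f c := by
      have hcv := H65.cvbg n a c f hqc
      have h3 := (hpos c hcI).2.1
      rw [hcv] at h3
      exact (pos_iff_pos_of_mul_pos h3).1 (Real.rpow_pos_of_pos hqc _)
    have hRBd0 : 0 < RB' n a f d := by
      have hcv := H65.cvbg n a d f hqd
      have h3 := (hpos d hdI).2.1
      rw [hcv] at h3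
      exact (pos_iff_pos_of_mul_pos h3).1 (Real.rpow_pos_of_pos hqd _)
    have hRBle : RB' n a f d ≤ RB' n a f c := hRB' hdI hcI hdc
    have hNle : (1 + (a' - 1) * d ^ 2) * RA n f d ^ 2 ≤ (1 + (a' - 1) * c ^ 2) * RA n f c ^ 2 :=
      hN hdm hcm hdc
    have hF1 := hformula τ1 h0 h1' c hc
    have hF2 := hformula τ2 hτ2 h2 d hd
    set Nc := (1 + (a' - 1) * c ^ 2) * RA n f c ^ 2 with hNc
    set Nd := (1 + (a' - 1) * d ^ 2) * RA n f d ^ 2 with hNd
    have hNc0 : 0 < Nc := by positivity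
    have hNd0 : 0 < Nd := by positivity
    set Qc := (1 + (a - 1) * c ^ 2) / (1 + (a' - 1) * c ^ 2) with hQc
    set Qd := (1 + (a - 1) * d ^ 2) / (1 + (a' - 1) * d ^ 2) with hQd
    have hQc0 : 0 < Qc := by positivity
    have hQd0 : 0 < Qd := by positivity
    have hCa : 0 < C * a ^ (-m) := mul_pos hC (Real.rpow_pos_of_pos ha0 _)
    have hEl1 : 0 < El n (1 / a) f τ1 := by
      rw [hF1]
      positivity
    refine ⟨?_, hEl1⟩
    -- the ratio
    set D := (a - a') / a ^ 2 * (τ2 ^ 2 - τ1 ^ 2) with hD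
    have hD2 : (a - a') / (2 * a ^ 2) * (τ2 ^ 2 - τ1 ^ 2) = D / 2 := by
      rw [hD]
      field_simp
    rw [hD2]
    have hXX : c ^ 2 - d ^ 2 = τ2 ^ 2 - τ1 ^ 2 := by rw [hcsq, hdsq]; ring
    have hXX0 : 0 ≤ c ^ 2 - d ^ 2 := by nlinarith
    have hc1' : c ^ 2 ≤ 1 := by nlinarith [hcm.2]
    have hd1' : d ^ 2 ≤ 1 := by nlinarith [hdm.2]
    have hratio : Qd / Qc ≤ 1 - D := by
      have e1 : Qd / Qc = 1 - (a - a') * (c ^ 2 - d ^ 2) /
          ((1 + (a' - 1) * d ^ 2) * (1 + (a - 1) * c ^ 2)) := by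
        rw [hQd, hQc]
        field_simp
        ring
      rw [e1]
      have e2 : (1 + (a' - 1) * d ^ 2) * (1 + (a - 1) * c ^ 2) ≤ a ^ 2 := by
        have h3 : 1 + (a' - 1) * d ^ 2 ≤ a := by
          have : (a' - 1) * d ^ 2 ≤ (a' - 1) * 1 := mul_le_mul_of_nonneg_left hd1' haa'
          linarith
        have h4 : 1 + (a - 1) * c ^ 2 ≤ a := by
          have : (a - 1) * c ^ 2 ≤ (a - 1) * 1 := mul_le_mul_of_nonneg_left hc1' haa
          linarith
        calc (1 + (a' - 1) * d ^ 2) * (1 + (a - 1) * c ^ 2) ≤ a * a :=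
              mul_le_mul h3 h4 hqc.le ha0.le
          _ = a ^ 2 := by ring
      have e3 : D ≤ (a - a') * (c ^ 2 - d ^ 2) /
          ((1 + (a' - 1) * d ^ 2) * (1 + (a - 1) * c ^ 2)) := by
        rw [hD, ← hXX, div_mul_eq_mul_div]
        apply div_le_div_of_nonneg_left _ (by positivity) e2
        exact mul_nonneg (by linarith) hXX0
      linarith
    have hratio0 : 0 < Qd / Qc := by positivity
    have hratio1 : Qd / Qc ≤ 1 := by
      have : 0 ≤ D := by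
        rw [hD, ← hXX]
        have : 0 ≤ a - a' := by linarith
        positivity
      linarith
    have hpowle : (Qd / Qc) ^ k ≤ (1 + Qd / Qc) / 2 := by
      calc (Qd / Qc) ^ k ≤ (Qd / Qc) ^ (1 / 2 : ℝ) :=
            Real.rpow_le_rpow_of_exponent_ge hratio0 hratio1 hk1
        _ = Real.sqrt (Qd / Qc) := (Real.sqrt_eq_rpow _).symm
        _ ≤ (1 + Qd / Qc) / 2 := by
            have h1 := Real.sq_sqrt hratio0.le
            nlinarith [sq_nonneg (1 - Real.sqrt (Qd / Qc))]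
    have hQk : Qd ^ k = Qc ^ k * (Qd / Qc) ^ k := by
      rw [← Real.mul_rpow hQc0.le hratio0.le]
      congr 1
      field_simp
    have hQd1 : Qd ^ k ≤ Qc ^ k * (1 - D / 2) := by
      rw [hQk]
      apply mul_le_mul_of_nonneg_left _ (Real.rpow_nonneg hQc0.le _)
      linarith
    rw [hF2, hF1]
    have hNk : Nd ^ k ≤ Nc ^ k := Real.rpow_le_rpow hNd0.le hNle (by linarith)
    have hQd0k : 0 ≤ Qd ^ k := Real.rpow_nonneg hQd0.le _
    calc C * a ^ (-m) * RB' n a f d * Nd ^ k * Qd ^ k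
        ≤ C * a ^ (-m) * RB' n a f c * Nc ^ k * Qd ^ k := by
          apply mul_le_mul_of_nonneg_right _ hQd0k
          apply mul_le_mul _ hNk (Real.rpow_nonneg hNd0.le _) (by positivity)
          exact mul_le_mul_of_nonneg_left hRBle hCa.le
      _ ≤ C * a ^ (-m) * RB' n a f c * Nc ^ k * (Qc ^ k * (1 - D / 2)) := by
          apply mul_le_mul_of_nonneg_left hQd1
          positivity
      _ = C * a ^ (-m) * RB' n a f c * Nc ^ k * Qc ^ k * (1 - D / 2) := by ring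
  have hElδ := (hmain δ δ hδ0.le le_rfl le_rfl).2
  refine ⟨δ, El n (1 / a) f δ * ((a - a') / (2 * a ^ 2)), hδ0, hδ1, ?_, ?_⟩
  · apply mul_pos hElδ
    apply div_pos (by linarith) (by positivity)
  · intro τ1 τ2 h0 h1 h2
    obtain ⟨hA1, hA2⟩ := hmain τ1 τ2 h0 h1 h2
    obtain ⟨hB1, _⟩ := hmain τ1 δ h0 (le_trans h1 h2) le_rfl
    have hs : 0 ≤ τ2 ^ 2 - τ1 ^ 2 := by nlinarith
    have hs' : 0 ≤ δ ^ 2 - τ1 ^ 2 := by nlinarith
    have hw : 0 ≤ (a - a') / (2 * a ^ 2) := div_nonneg (by linarith) (by positivity)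
    have hδle : El n (1 / a) f δ ≤ El n (1 / a) f τ1 := by
      have : 0 ≤ El n (1 / a) f τ1 * ((a - a') / (2 * a ^ 2) * (δ ^ 2 - τ1 ^ 2)) := by positivity
      nlinarith
    have h5 : El n (1 / a) f δ * ((a - a') / (2 * a ^ 2)) * (τ2 ^ 2 - τ1 ^ 2) ≤
        El n (1 / a) f τ1 * ((a - a') / (2 * a ^ 2) * (τ2 ^ 2 - τ1 ^ 2)) := by
      rw [mul_assoc]
      exact mul_le_mul_of_nonneg_right hδle (mul_nonneg hw hs)
    nlinarith

end Pool.Agent.REV.H63
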