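import Pool.Agent.REV.StmtsU3

set_option autoImplicit false

/-!
# Squad REV, rows YR3, UF3
-/

namespace Pool.Agent.REV.H63

open Set Filter
open scoped Topology

theorem yr3 (yd3 : Yd3Stmt) (rc3 : Rc3Stmt) (ydr : YdrStmt) (rbc : RbcStmt) : Yr3Stmt := by
  intro n f c hn hf hb hc
  rcases Nat.lt_or_ge n 4 with h | h
  · have h3 : n = 3 := by omega
    subst h3
    refine ⟨?_, rc3 f c hf hb hc⟩
    have h1 := yd3 f c hf hb hc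
    have h2 : (((3 : ℕ) : ℝ) - 2) * RB 3 f c = RB 3 f c := by norm_num
    rw [h2]
    exact h1
  · exact ⟨ydr n f c h hf hb hc, rbc n f c h hf hb hc⟩

theorem uf3 (lip : Lip3Stmt) (mon : Mon3Stmt) (fx3 : Fx3Stmt) (fn3 : Fn3Stmt) (fc3 : Fc3Stmt) :
    Uf3Stmt := by
  intro D κ φ hD hκ hm hpos hM hRA hc
  obtain ⟨⟨C, hC, hU⟩, k, hk, hkt⟩ := fx3 3 D κ φ le_rfl hD hκ hm hpos hM hRA hc
  obtain ⟨K, hK, hL⟩ := lip C _ hU hC
  obtain ⟨A, hA, hLow⟩ := fn3 3 C K _ le_rfl hU hC hK (by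
    intro p q h0 h1 h2
    have h3 := hL p q h0 h1 (by linarith)
    have h4 := le_abs_self (TT 3 (3 - 1) 0 D (TT 3 (3 - 1) 0 D φ) p -
      TT 3 (3 - 1) 0 D (TT 3 (3 - 1) 0 D φ) q)
    linarith) (mon C _ hU hC)
  have hconst := fc3 3 C A _ le_rfl hU hC hA hLow
  refine ⟨k * TT 3 (3 - 1) 0 D (TT 3 (3 - 1) 0 D φ) 0, mul_pos hk (hU.pos 0 ⟨le_rfl, zero_le_one⟩), ?_⟩
  intro t ht
  have h1 := hkt t ht
  rw [hconst t ⟨ht.1, ht.2.le⟩] at h1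
  exact h1

end Pool.Agent.REV.H63
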