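import Pool.Agent.Helper65_REV.TAU
import Pool.Agent.Helper65_REV.CHV
import Pool.Agent.Helper65_REV.GEN
import Pool.Agent.Helper65_REV.STA
import Pool.Agent.Helper5_REV.CVA
import Pool.Agent.Helper69_REV.MRA
import Pool.Agent.Helper16_REV.LWA
import Pool.Agent.Helper89_REV.LWB
import Pool.Agent.Helper23_REV.STB
import Pool.Agent.Helper54_REV.INT
import Pool.Agent.Helper8_REV.CRC
import Pool.Agent.Helper12_REV.PWI
import Pool.Agent.Helper69_REV.LPA
import Pool.Agent.Helper17_REV.LPB
import Pool.Agent.Helper54_REV.KKI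
import Pool.Agent.Helper58_REV.KSN
import Pool.Agent.Helper24_REV.KST
import Pool.Agent.Helper12_REV.JEL
import Pool.Agent.Helper62_REV.MXL
import Pool.Agent.Helper42_REV.CRA
import Pool.Agent.Helper77_REV.YDR
import Pool.Agent.Helper50_REV.RBC
import Pool.Agent.Helper95_REV.RCT
import Pool.Agent.Helper69_REV.RPO
import Pool.Agent.Helper47_REV.YMO
import Pool.Agent.Helper39_REV.WLM
import Pool.Agent.Helper60_REV.ELC
import Pool.Agent.Helper39_REV.SAL
import Pool.Agent.Helper63_REV.SBD
import Pool.Agent.Helper75_REV.SMB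
import Pool.Agent.Helper57_REV.IMP
import Pool.Agent.Helper13_REV.FCO
import Pool.Agent.Helper70_REV.FIX
import Pool.Agent.Helper12_REV.LFQ
import Pool.Agent.Helper23_REV.NER
import Pool.Agent.Helper80_REV.FAR
import Pool.Agent.Helper23_REV.FIN
import Pool.Agent.Helper23_REV.UFD
import Pool.Agent.Helper59_REV.HZR

set_option autoImplicit false

/-!
# Squad REV, part U: assembly
-/

namespace Pool.Agent.REV.H63

open Pool.Agent.REV

theorem tauAll : TauStmt := H65.tau
theorem chvAll : ChvStmt := H65.chv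
theorem cvaAll : CvaStmt := H5.cva chvAll tauAll
theorem cvbAll : CvbStmt := H65.cvb
theorem mraAll : MraStmt := H69.mra tauAll
theorem staAll : StaStmt := H65.sta cvaAll cvbAll mraAll H16.lwa
theorem stbAll : StbStmt := H23.stb cvaAll cvbAll mraAll H89.lwb
theorem lpaAll : LpaStmt := H69.lpa H54.int H8.crc
theorem lpbAll : LpbStmt := H17.lpb H54.int H8.crc H12.pwi
theorem ksnAll : KsnStmt := H58.ksn H54.kki
theorem kstAll : KstStmt := H24.kst H54.kki
theorem ydrAll : YdrStmt := H77.ydr H62.mxl H42.cra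
theorem rbcAll : RbcStmt := H50.rbc H42.cra
theorem ymoAll : YmoStmt := H47.ymo ydrAll H69.rpo
theorem elcAll : ElcStmt := H60.elc cvaAll cvbAll
theorem salAll : SalStmt := H39.sal kstAll H12.jel cvaAll cvbAll elcAll
theorem sbdAll : SbdStmt := sbd salAll ymoAll H95.rct H69.rpo mraAll cvbAll
theorem smbAll : SmbStmt := H75.smb ksnAll H12.jel cvaAll cvbAll H69.rpo
theorem impAll : ImpStmt := H57.imp ymoAll H95.rct H69.rpo H39.wlm mraAll cvbAll
theorem fcoAll : FcoStmt := H13.fco staAll sbdAll smbAll impAll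
theorem fixAll : FixStmt := H70.fixu ydrAll rbcAll H95.rct
theorem lfqAll : LfqStmt := H12.lfq H69.rpo lpaAll lpbAll
theorem nerAll : NerStmt := H23.ner H95.rct H69.rpo
theorem farAll : FarStmt := H80.far ydrAll H95.rct H69.rpo H42.cra
theorem finAll : FinStmt := H23.fin lfqAll nerAll farAll stbAll

/-- the one variable theorem for `i = n - 1` -/
theorem ufdAll : UfdStmt := H23.ufd fixAll finAll fcoAll

end Pool.Agent.REV.H63
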