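import Pool.Agent.REV.StmtsU3
import Pool.Agent.REV.StmtsP3
import Pool.Agent.Helper65_REV.A13All
import Pool.Agent.Helper63_REV.UAll
import Pool.Agent.Helper63_REV.YR3
import Pool.Agent.Helper63_REV.SD3
import Pool.Agent.Helper21_REV.KI3
import Pool.Agent.Helper65_REV.KN3
import Pool.Agent.Helper70_REV.KT3
import Pool.Agent.Helper66_REV.JE3
import Pool.Agent.Helper27_REV.RC3
import Pool.Agent.Helper6_REV.YD3
import Pool.Agent.Helper89_REV.RT3
import Pool.Agent.Helper76_REV.RP3
import Pool.Agent.Helper29_REV.YM3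
import Pool.Agent.Helper62_REV.WL3
import Pool.Agent.Helper12_REV.EL3
import Pool.Agent.Helper35_REV.SA3
import Pool.Agent.Helper11_REV.SM3
import Pool.Agent.Helper43_REV.IM3
import Pool.Agent.Helper16_REV.FC3
import Pool.Agent.Helper49_REV.FX3
import Pool.Agent.Helper6_REV.NE3
import Pool.Agent.Helper10_REV.FR3
import Pool.Agent.Helper30_REV.FN3
import Pool.Agent.Helper36_REV.HLX
import Pool.Agent.Helper50_REV.HST
import Pool.Agent.Helper19_REV.HRB
import Pool.Agent.Helper59_REV.HKE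
import Pool.Agent.Helper81_REV.HRA
import Pool.Agent.Helper19_REV.HSM
import Pool.Agent.Helper34_REV.PMB
import Pool.Agent.Helper98_REV.PIN
import Pool.Agent.Helper12_REV.PUB
import Pool.Agent.Helper59_REV.PFO
import Pool.Agent.Helper59_REV.PEQ
import Pool.Agent.Helper88_REV.PST
import Pool.Agent.Helper86_REV.PUP
import Pool.Agent.Helper24_REV.PDJ
import Pool.Agent.Helper28_REV.PDN
import Pool.Agent.Helper19_REV.PDL
import Pool.Agent.Helper47_REV.PWM
import Pool.Agent.Helper23_REV.PZR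

/-!
# Squad REV (problem MP_bbfd73_gt): part U3 without hypotheses

For `n = 3`, a bounded nonnegative profile whose radial mean is a multiple of the radial mean of its
transform is transformed to a constant on `[0,1)`.
-/

set_option autoImplicit false

open MeasureTheory Set Filter Topology

namespace Pool.Agent.REV.H63

open Pool.Agent.REV

theorem ki3All : Ki3Stmt := Pool.Agent.REV.H21.ki3

theorem kn3All : Kn3Stmt := Pool.Agent.REV.H65.kn3 ki3All

theorem kt3All : Kt3Stmt := Pool.Agent.REV.H70.kt3 ki3All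

theorem je3All : Je3Stmt := Pool.Agent.REV.H66.je3

theorem rc3All : Rc3Stmt := Pool.Agent.REV.H27.rc3

theorem yd3All : Yd3Stmt := Pool.Agent.REV.H6.yd3 rc3All

theorem yr3All : Yr3Stmt := yr3 yd3All rc3All ydrAll rbcAll

theorem rt3All : Rt3Stmt := Pool.Agent.REV.H89.rt3

theorem rp3All : Rp3Stmt := Pool.Agent.REV.H76.rp3 ki3All

theorem ym3All : Ym3Stmt := Pool.Agent.REV.H29.ym3 yr3All rp3All

theorem wl3All : Wl3Stmt := Pool.Agent.REV.H62.wl3

theorem el3All : El3Stmt := Pool.Agent.REV.H12.el3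

theorem sa3All : Sa3Stmt := Pool.Agent.REV.H35.sa3 kt3All je3All el3All

theorem sd3All : Sd3Stmt := sd3 sa3All ym3All rt3All rp3All Pool.Agent.REV.H65.mra3All

theorem sm3All : Sm3Stmt := Pool.Agent.REV.H11.sm3 kn3All je3All rp3All

theorem im3All : Im3Stmt :=
  Pool.Agent.REV.H43.im3 ym3All rt3All rp3All wl3All Pool.Agent.REV.H65.mra3All

theorem fc3All : Fc3Stmt :=
  Pool.Agent.REV.H16.fc3 Pool.Agent.REV.H65.sta3All sd3All sm3All im3All

theorem fx3All : Fx3Stmt := Pool.Agent.REV.H49.fx3 yr3All rt3All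

theorem ne3All : Ne3Stmt := Pool.Agent.REV.H6.ne3 rt3All rp3All

theorem fr3All : Fr3Stmt := Pool.Agent.REV.H10.fr3 yr3All rt3All rp3All

theorem fn3All : Fn3Stmt := Pool.Agent.REV.H30.fn3 ne3All fr3All Pool.Agent.REV.H65.stb3All

/-! ### Part P3 -/

theorem hkeAll : HkeStmt := Pool.Agent.REV.H59.hke

theorem hrbAll : HrbStmt := Pool.Agent.REV.H19.hrb hkeAll

theorem hraAll : HraStmt := Pool.Agent.REV.H81.hra yd3All

theorem hsmAll : HsmStmt := Pool.Agent.REV.H19.hsm

theorem hstAll : HstStmt := Pool.Agent.REV.H50.hst hrbAll hraAll hsmAll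

theorem hlxAll : HlxStmt := Pool.Agent.REV.H36.hlx hstAll

theorem pinAll : PinStmt := Pool.Agent.REV.H98.pin

theorem pubAll : PubStmt := Pool.Agent.REV.H12.pub

theorem pfoAll : PfoStmt := Pool.Agent.REV.H59.pfo

theorem peqAll : PeqStmt := Pool.Agent.REV.H59.peq pfoAll

theorem pstAll : PstStmt := Pool.Agent.REV.H88.pst

theorem pupAll : PupStmt := Pool.Agent.REV.H86.pup pinAll

theorem pdjAll : PdjStmt := Pool.Agent.REV.H24.pdj

theorem pdnAll : PdnStmt := Pool.Agent.REV.H28.pdn pdjAll pinAll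

theorem pdlAll : PdlStmt := Pool.Agent.REV.H19.pdl pdnAll pinAll

theorem pwmAll : PwmStmt := Pool.Agent.REV.H47.pwm pinAll

theorem pzrAll : PzrStmt := Pool.Agent.REV.H23.pzr pinAll pupAll pdlAll pwmAll

theorem pmbAll : PmbStmt :=
  Pool.Agent.REV.H34.pmb pinAll pubAll pfoAll peqAll pstAll pzrAll hlxAll

/-! ### The two inputs of part U3, and part U3 -/

/-- An exact fixed density for `n = 3` is Lipschitz in `t^2`. -/
theorem lip3All : Lip3Stmt := by
  intro C f hf hC
  obtain ⟨K, hK, h⟩ := hlxAll C f hf hC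
  refine ⟨K, hK, ?_⟩
  intro p q hp hpq hq
  have h1 := h p ⟨hp, hpq.trans hq⟩ q ⟨hp.trans hpq, hq⟩
  have h2 : |p ^ 2 - q ^ 2| = q ^ 2 - p ^ 2 := by
    rw [abs_sub_comm]
    apply abs_of_nonneg
    nlinarith
  rw [h2] at h1
  exact h1

/-- The monotonicity which starts the comparison. -/
theorem mon3All : Mon3Stmt := fun C f hf hC => pmbAll C f hf hC

/-- UF3 without hypotheses. -/
theorem uf3All : Uf3Stmt := uf3 lip3All mon3All fx3All fn3All fc3All

end Pool.Agent.REV.H63
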