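import Pool.Agent.REV.StmtsU3
import Pool.Agent.REV.StmtsG4
import Pool.Agent.Helper63_REV.TOPU
import Pool.Agent.Helper59_REV.HZR

set_option autoImplicit false

/-!
# Squad REV, part U3, top: dimension `3`, `i = 2`: a solution with a bounded zonal generating density is a ball
-/

open MeasureTheory Module Set Filter
open scoped RealInnerProductSpace Pointwise Topology ENNReal

namespace Pool.Agent.REV.H63

open Pool.Agent.Helper55_PB Pool.Agent.Helper28_PB Pool.Agent.BPH Pool.Agent.REV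
open Pool.Agent.REV.H51 (zon_apply zon_of_le hz_one)

section

variable {E : Type} [NormedAddCommGroup E] [InnerProductSpace ℝ E] [FiniteDimensional ℝ E]
  [MeasurableSpace E] [BorelSpace E]

/-- the support function determines `RA`, all dimensions `≥ 3` -/
theorem hzr3 (dhz : Dhz3Stmt) (h4 : 3 ≤ finrank ℝ E) {e : E} (he : ‖e‖ = 1) {φ ψ : ℝ → ℝ} {κ0 : ℝ}
    (hφ : BM φ) (hψ : BM ψ) (heq : ∀ w : E, hz (zon e φ) w = κ0 * hz (zon e ψ) w) :
    ∀ c ∈ Ioc (0 : ℝ) 1, RA (finrank ℝ E) φ c = κ0 * RA (finrank ℝ E) ψ c := by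
  intro c hc
  have hnt : Nontrivial E := Module.nontrivial_of_finrank_pos (R := ℝ) (by omega)
  obtain ⟨κ, hκ, hd⟩ := dhz E h4
  obtain ⟨m, hm, hem⟩ := exists_perp' (E := E) (by omega) e
  set t := Real.sqrt (1 - c ^ 2) with ht
  have htc : t ^ 2 + c ^ 2 = 1 := by
    rw [ht, Real.sq_sqrt (by nlinarith [hc.1, hc.2])]
    ring
  set u := t • e + c • m with hu
  have hu1 : ‖u‖ ^ 2 = 1 := by
    rw [hu, @norm_add_sq_real, norm_smul, norm_smul, he, hm, inner_smul_left, inner_smul_right, hem]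
    simp only [Real.norm_eq_abs, mul_one, sq_abs, mul_zero, add_zero]
    exact htc
  have hu0 : u ≠ 0 := by
    intro h
    rw [h, norm_zero] at hu1
    norm_num at hu1
  have hzm : ∀ χ : ℝ → ℝ, BM χ → Measurable (zon e χ) ∧ ∃ C, ∀ x, |zon e χ x| ≤ C := by
    intro χ hχ
    obtain ⟨hm', C, hC⟩ := hχ
    exact ⟨hm'.comp (by fun_prop), C, fun x => hC _⟩
  obtain ⟨hm1, C1, hC1⟩ := hzm φ hφ
  obtain ⟨hm2, C2, hC2⟩ := hzm ψ hψ
  have hd1 := H59.hz_deriv hm1 hC1 hu0 hm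
  have hd2 := (H59.hz_deriv hm2 hC2 hu0 hm).const_mul κ0
  have hfun : (fun s : ℝ => hz (zon e φ) (u + s • m)) =
      fun s : ℝ => κ0 * hz (zon e ψ) (u + s • m) := funext fun s => heq _
  rw [hfun] at hd1
  have huniq := hd1.unique hd2
  rw [hd e m he hm hem t c htc hc.1 φ hφ, hd e m he hm hem t c htc hc.1 ψ hψ] at huniq
  have hkc : κ * c ≠ 0 := mul_ne_zero hκ.ne' hc.1.ne'
  have h5 : κ * c * RA (finrank ℝ E) φ c = κ * c * (κ0 * RA (finrank ℝ E) ψ c) := by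
    linear_combination huniq
  exact mul_left_cancel₀ hkc h5

/-- **Bounded zonal densities, `i = n - 1`.**  `K` is the zonoid of a bounded zonal profile, and the
step of the density of `K` is again a density of a multiple of `K`. -/
theorem ball_of_profile3 (sp : SPH) (pin : PINStmt) (dhz : Dhz3Stmt)
    (zst : Zst3Stmt) (cpo : Cpo3Stmt) (uf3 : Uf3Stmt) (hE : finrank ℝ E = 3) {K : Set E}
    (hcc : CC K) (h0 : (0 : E) ∈ interior K)
    (geo : ∀ f f' : E → ℝ, Dens f → Dens f' → IsStep (finrank ℝ E - 1) f f' → ∀ t : ℝ, 0 < t →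
      Nr K f t 0 → ∃ t' : ℝ, 0 < t' ∧ Nr K f' t' 0)
    {e : E} (he : ‖e‖ = 1) {φ : ℝ → ℝ} (hφ : Prf φ) {t : ℝ} (ht : 0 < t)
    (hK : ∀ w : E, supportFn K w = t * hz (zon e φ) w) :
    ∃ r : ℝ, 0 < r ∧ K = Metric.closedBall (0 : E) r := by
  have hnt : Nontrivial E := Module.nontrivial_of_finrank_pos (R := ℝ) (by omega)
  have hprob : IsProbabilityMeasure (sph E) := sp.prob
  have h4 : 3 ≤ finrank ℝ E := by omega
  -- positivity of the support function
  obtain ⟨r, hr, hball⟩ := exists_ball_zero h0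
  have hrK : ∀ w : E, ‖w‖ = 1 → 0 < supportFn K w := by
    intro w hw
    have := le_supportFn_of_ball hcc.cpt hr.le hball w
    rw [hw, mul_one] at this
    linarith
  obtain ⟨w₀, hw₀, hew₀⟩ := exists_perp' (E := E) (by omega) e
  obtain ⟨M, hM⟩ := hφ.bdd
  have hzm : ∀ ψ : ℝ → ℝ, Measurable ψ → Measurable (zon e ψ) := by
    intro ψ hψ
    exact hψ.comp (by fun_prop)
  have hint : ∀ ψ : ℝ → ℝ, Prf ψ → Integrable (zon e ψ) (sph E) := by
    intro ψ hψ
    obtain ⟨M', hM'⟩ := hψ.bdd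
    refine Integrable.of_bound (hzm ψ hψ.meas).aestronglyMeasurable M' ?_
    refine ae_of_all _ fun x => ?_
    rw [Real.norm_eq_abs, zon_apply, abs_of_nonneg (hψ.nonneg _)]
    exact hM' _
  -- the mass
  set m₀ : ℝ := ∫ x, zon e φ x ∂sph E with hm₀
  have hm₀pos : 0 < m₀ := by
    have h1 : 0 < hz (zon e φ) w₀ := by
      have h2 := hrK w₀ hw₀
      rw [hK w₀] at h2
      exact (pos_iff_pos_of_mul_pos h2).1 ht
    have h3 : hz (zon e φ) w₀ ≤ m₀ := by
      unfold hz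
      rw [hm₀]
      refine integral_mono_of_nonneg (ae_of_all _ fun x => mul_nonneg (abs_nonneg _)
        (hφ.nonneg _)) (hint φ hφ) ?_
      filter_upwards [sp.norm (E := E)] with x hx
      have h5 : |⟪w₀, x⟫| ≤ 1 := by
        have := abs_real_inner_le_norm w₀ x
        rwa [hw₀, hx, one_mul] at this
      exact mul_le_of_le_one_left (hφ.nonneg _) h5
    linarith
  set φ₁ : ℝ → ℝ := fun s => m₀⁻¹ * φ s with hφ₁
  have hPrf : Prf φ₁ := by
    refine ⟨hφ.meas.const_mul _, fun s => mul_nonneg (inv_nonneg.2 hm₀pos.le) (hφ.nonneg s),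
      m₀⁻¹ * M, fun s => mul_le_mul_of_nonneg_left (hM s) (inv_nonneg.2 hm₀pos.le)⟩
  have hzon₁ : zon e φ₁ = fun x => m₀⁻¹ * zon e φ x := rfl
  have hDens : Dens (zon e φ₁) := by
    refine ⟨hzm _ hPrf.meas, fun x => hPrf.nonneg _, ?_, ?_⟩
    · obtain ⟨M', hM'⟩ := hPrf.bdd
      exact ⟨M', fun x => hM' _⟩
    · rw [hzon₁, integral_const_mul, ← hm₀]
      field_simp
  have hhz₁ : ∀ w, hz (zon e φ₁) w = m₀⁻¹ * hz (zon e φ) w := by
    intro w
    unfold hz
    rw [← integral_const_mul]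
    congr 1
    ext x
    rw [hzon₁]
    ring
  have hK₁ : ∀ w, supportFn K w = (t * m₀) * hz (zon e φ₁) w := by
    intro w
    rw [hK w, hhz₁]
    field_simp
  obtain ⟨c0, hc0, hst⟩ := zst E 2 h4 (by omega) (by omega)
  obtain ⟨hZ, hPrf', hDens', hStep⟩ := hst e φ₁ he hPrf hDens
  obtain ⟨-, -, hC2, -⟩ := cpo 3 2 le_rfl (by omega) (by omega)
  rw [hE] at hPrf' hDens' hStep geo
  have hC10 : C1 3 2 = 0 := by
    unfold C1
    rw [(Nat.descFactorial_eq_zero_iff_lt).2 (by omega)]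
    simp
  rw [hC10] at hPrf' hDens' hStep
  set D := C2 3 2 with hD
  set ζ : ℝ := c0 / ZZ 2 (zon e φ₁) with hζ
  have hζ0 : 0 < ζ := div_pos hc0 hZ
  set f₁ : ℝ → ℝ := fun s => ζ * TT 3 2 0 D φ₁ s with hf₁
  have hNr : Nr K (zon e φ₁) (t * m₀) 0 := by
    intro w
    rw [neg_zero, Real.exp_zero, one_mul, hK₁ w]
    exact ⟨le_rfl, le_rfl⟩
  obtain ⟨t', ht', hNr'⟩ := geo _ _ hDens hDens' hStep (t * m₀) (mul_pos ht hm₀pos) hNr
  have hK' : ∀ w, supportFn K w = t' * hz (zon e f₁) w := by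
    intro w
    have := hNr' w
    rw [neg_zero, Real.exp_zero, one_mul] at this
    exact le_antisymm this.2 this.1
  have hBM : ∀ ψ : ℝ → ℝ, Prf ψ → BM ψ := by
    intro ψ hψ
    obtain ⟨M', hM'⟩ := hψ.bdd
    exact ⟨hψ.meas, M', fun s => by rw [abs_of_nonneg (hψ.nonneg _)]; exact hM' s⟩
  have htm : 0 < t * m₀ := mul_pos ht hm₀pos
  have hRA : ∀ c ∈ Ioc (0 : ℝ) 1, RA 3 φ₁ c = (t' / (t * m₀)) * RA 3 f₁ c := by
    have h0 := hzr3 dhz h4 he (κ0 := t' / (t * m₀)) (hBM _ hPrf) (hBM _ hPrf') (by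
      intro w
      have h1 := hK₁ w
      rw [hK' w] at h1
      rw [div_mul_eq_mul_div, h1]
      field_simp)
    rwa [hE] at h0
  have hRA' : ∀ c ∈ Ioc (0 : ℝ) 1,
      RA 3 φ₁ c = (t' / (t * m₀) * ζ) * RA 3 (TT 3 2 0 D φ₁) c := by
    intro c hc
    have h1 : RA 3 f₁ c = ζ * RA 3 (TT 3 2 0 D φ₁) c := RA_smul
    rw [hRA c hc, h1]
    ring
  have hRA1 : 0 < RA 3 φ₁ 1 := by
    obtain ⟨κ, hκ, hdz⟩ := dhz E h4
    rw [hE] at hdz
    have h1 := hdz e w₀ he hw₀ hew₀ 0 1 (by norm_num) one_pos φ₁ (hBM _ hPrf)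
    have h2 : ∫ x, Real.sign ⟪(0 : ℝ) • e + (1 : ℝ) • w₀, x⟫ * ⟪w₀, x⟫ * zon e φ₁ x ∂sph E =
        hz (zon e φ₁) w₀ := by
      unfold hz
      congr 1
      ext x
      rw [zero_smul, zero_add, one_smul, sign_mul_self']
    rw [h2, one_mul] at h1
    have h3 : 0 < hz (zon e φ₁) w₀ := by
      have h4 := hrK w₀ hw₀
      rw [hK₁ w₀] at h4
      exact (pos_iff_pos_of_mul_pos h4).1 htm
    rw [h1] at h3
    exact (pos_iff_pos_of_mul_pos h3).1 hκ
  obtain ⟨k, hk, hconst⟩ := uf3 D (t' / (t * m₀) * ζ) φ₁ hC2 (by positivity) hPrf.meas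
    hPrf.nonneg hPrf.bdd hRA1 hRA'
  obtain ⟨b, hb, hone⟩ := hz_one (E := E) sp pin
  have hcst : ∀ u : E, ‖u‖ = 1 → supportFn K u = t' * (ζ * k * b) := by
    intro u hu
    rw [hK' u, ← hone u hu]
    congr 1
    unfold hz
    rw [← integral_const_mul]
    apply integral_congr_ae
    filter_upwards [ae_lt sp (E := E) (by omega) he] with x hx
    have h1 : zon e f₁ x = ζ * k := by
      rw [zon_of_le he _ hx.1.le]
      show ζ * TT 3 2 0 D φ₁ |⟪e, x⟫| = ζ * k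
      rw [hconst _ ⟨abs_nonneg _, hx.2⟩]
    rw [h1]
    ring
  have hpos : 0 < t' * (ζ * k * b) := by positivity
  refine ⟨t' * (ζ * k * b), hpos, Subset.antisymm ?_ ?_⟩
  · exact subset_closedBall_of_max hcc hpos.le (fun w hw => (hcst w hw).le)
  · exact closedBall_subset_of_min hcc (fun w hw => (hcst w hw).ge)

end

end Pool.Agent.REV.H63
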